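import Pool.Agent.H59.SD.TargetsN
import Pool.Agent.H45.NF.PA
import Pool.Agent.H45.NF.CL
import Pool.Agent.H7.HD.All

/-!
Row MIP: the measure is a member of HOD(P(L)).
-/

set_option autoImplicit false

open Ordinal Cardinal Order Set
open scoped ZFSet

universe u

namespace Pool.Agent.H94.SD

open _root_.HD _root_.HD.SD
open _root_.HD.NF (w0)

theorem dz_pos2 (μ κ : Ordinal.{u}) :
    DZ fun v : ℕ → ZFSet.{u} => Pos μ κ {a | a.toZFSet ∈ v 0 ∧ a.toZFSet ∉ v 1} := by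
  have h1 : Loc.{u} fun v => (v 0).IsOrdinal ∧ (v 1).IsOrdinal ∧
      Pos (v 0).rank (v 1).rank {b | b.toZFSet ∈ v 2 ∧ b.toZFSet ∉ v 3} :=
    loc_pos _root_.HD.All.la (P := fun b v => b ∈ v 2 ∧ b ∉ v 3) 0 1
      ((Loc.mem 0 3).and (Loc.mem 0 4).not)
  have h2 : DZ fun v : ℕ → ZFSet.{u} => (v 0).IsOrdinal ∧ (κ.toZFSet).IsOrdinal ∧
      Pos (v 0).rank (κ.toZFSet).rank {b | b.toZFSet ∈ v 1 ∧ b.toZFSet ∉ v 2} := by
    refine DZ.od (R := fun k v => (v 0).IsOrdinal ∧ k.IsOrdinal ∧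
      Pos (v 0).rank k.rank {b | b.toZFSet ∈ v 1 ∧ b.toZFSet ∉ v 2}) (OD.ordinal κ) ?_
    exact h1.dz.ren fun n => if n = 0 then 1 else if n = 1 then 0 else n
  have h3 := DZ.od (R := fun m v => m.IsOrdinal ∧ (κ.toZFSet).IsOrdinal ∧
      Pos m.rank (κ.toZFSet).rank {b | b.toZFSet ∈ v 0 ∧ b.toZFSet ∉ v 1}) (OD.ordinal μ) h2
  refine h3.congr fun v => ?_
  rw [rank_toZFSet, rank_toZFSet]
  exact ⟨fun h => ⟨ZFSet.isOrdinal_toZFSet _, ZFSet.isOrdinal_toZFSet _, h⟩, fun h => h.2.2⟩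

theorem pf_MIP (h1 : T_PSD.{u}) : T_MIP.{u} := by
  intro L _ S hS
  obtain ⟨y, hy, hyS⟩ := hS
  obtain ⟨R, hR, hRs⟩ := (Pool.Agent.H45.NF.pf_pa y _).1 hyS
  refine ZFSet.hereditarily_iff.2 ⟨⟨y, hy, ?_⟩, fun x hx => (ZFSet.mem_sep.1 hx).2.1⟩
  refine Pool.Agent.H45.NF.ODp.of_dz (Q := fun v => ∀ z, z ∈ v 0 ↔
    z ∈ ZFSet.powerset (succ L).ord.toZFSet ∧ NP L z ∧ ∃ X, ZFSet.pair (v 1) X ∈ R ∧
      ¬ Pos w0 (succ L).ord {a | a.toZFSet ∈ X ∧ a.toZFSet ∉ z})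
    (DZ.all (DZ.iff (DZ.mem 0 1) (DZ.and ?_ (DZ.and (h1 L).2 (DZ.ex (DZ.and ?_
      (dz_pos2 w0 (succ L).ord).not)))))) fun x => ?_
  · exact DZ.od (R := fun b v => v 0 ∈ b)
      (Pool.Agent.H45.NF.od_powerset (OD.ordinal (succ L).ord)) (DZ.mem 1 0)
  · exact DZ.od (R := fun r v => ZFSet.pair (v 3) (v 0) ∈ r) hR (loc_pmem 4 1 0).dz
  · have hpos : ∀ z : ZFSet.{u}, Pos w0 (succ L).ord
        {a | a.toZFSet ∈ os (succ L).ord S ∧ a.toZFSet ∉ z} ↔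
        Pos w0 (succ L).ord {a | a ∈ S ∧ a.toZFSet ∉ z} := by
      intro z
      constructor
      · intro h
        exact h.mono fun b _ hb _ => ⟨(ord_mem_os.1 hb.1).2, hb.2⟩
      · intro h
        exact h.mono fun b hb hbs _ => ⟨ord_mem_os.2 ⟨hb, hbs.1⟩, hbs.2⟩
    have key : ∀ z, (z ∈ ZFSet.powerset (succ L).ord.toZFSet ∧ NP L z ∧ ∃ X,
        ZFSet.pair y X ∈ R ∧ ¬ Pos w0 (succ L).ord {a | a.toZFSet ∈ X ∧ a.toZFSet ∉ z}) ↔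
        z ∈ UP L S := by
      intro z
      unfold UP
      rw [ZFSet.mem_sep]
      constructor
      · rintro ⟨h1, h2, X, h3, h4⟩
        rw [(hRs X).1 h3, hpos] at h4
        exact ⟨h1, h2, h4⟩
      · rintro ⟨h1, h2, h4⟩
        exact ⟨h1, h2, _, (hRs _).2 rfl, by rwa [hpos]⟩
    show (∀ z, z ∈ x ↔ z ∈ ZFSet.powerset (succ L).ord.toZFSet ∧ NP L z ∧ ∃ X,
        ZFSet.pair y X ∈ R ∧ ¬ Pos w0 (succ L).ord {a | a.toZFSet ∈ X ∧ a.toZFSet ∉ z}) ↔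
        x = UP L S
    constructor
    · intro h
      ext z
      rw [h z, key z]
    · rintro rfl z
      exact (key z).symm

end Pool.Agent.H94.SD
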