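import Pool.Agent.H98.SD.TargetsM
import Pool.Agent.H94.SD.MIP
import Pool.Agent.H14.SD.PSD

/-!
Lemmas for row MEC: the classes `PC A` and `NC A`, and the measure is a member of `NC A`.
-/

set_option autoImplicit false

open Ordinal Cardinal Order Set
open scoped ZFSet

universe u

namespace Pool.Agent.H94.SD

open _root_.HD _root_.HD.SD Pool.Agent.H45.NF
open _root_.HD.NF (w0)

/-- `z` is definable from ordinals and a set `y` with `Q0 (y, x)` -/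
def PCx (Q0 : (ℕ → ZFSet.{u}) → Prop) (z x : ZFSet.{u}) : Prop :=
  ∃ y, Q0 (cons y fun _ => x) ∧ ∃ R, OD R ∧ ∀ z' w, w = ZFSet.pair y z' → (w ∈ R ↔ z' = z)

/-- its hereditary form -/
def NCx (Q0 : (ℕ → ZFSet.{u}) → Prop) (z x : ZFSet.{u}) : Prop :=
  PCx Q0 z x ∧ ∃ t : ZFSet.{u}, (∀ y ∈ t, ∀ z ∈ y, z ∈ t) ∧ (∀ y ∈ z, y ∈ t) ∧
    ∀ y ∈ t, PCx Q0 y x

theorem pc_iff {A : ZFSet.{u} → Prop} {Q0 : (ℕ → ZFSet.{u}) → Prop} {x : ZFSet.{u}}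
    (h : ∀ y, (A y ↔ Q0 (cons y fun _ => x))) (z : ZFSet.{u}) : PC A z ↔ PCx Q0 z x := by
  constructor
  · rintro ⟨y, hy, hz⟩
    obtain ⟨R, hR, h1⟩ := (pf_pa y z).1 hz
    refine ⟨y, (h y).1 hy, R, hR, fun z' w hw => ?_⟩
    rw [hw]
    exact h1 z'
  · rintro ⟨y, hy, R, hR, h1⟩
    exact ⟨y, (h y).2 hy, (pf_pa y z).2 ⟨R, hR, fun z' => h1 z' _ rfl⟩⟩

theorem nc_def {A : ZFSet.{u} → Prop} {x : ZFSet.{u}} :
    NC A x ↔ PC A x ∧ ∀ y ∈ x, NC A y := ZFSet.hereditarily_iff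

theorem nc_tr {A : ZFSet.{u} → Prop} {x : ZFSet.{u}} : NC A x ↔ PC A x ∧
    ∃ t : ZFSet.{u}, (∀ y ∈ t, ∀ z ∈ y, z ∈ t) ∧ (∀ y ∈ x, y ∈ t) ∧ ∀ y ∈ t, PC A y := by
  constructor
  · intro hx
    refine ⟨(nc_def.1 hx).1, ZFSet.sep (NC A) (V_ x.rank), ?_, ?_, ?_⟩
    · intro y hy z hz
      rw [ZFSet.mem_sep] at hy ⊢
      exact ⟨mem_V_of_mem hz hy.1, (nc_def.1 hy.2).2 z hz⟩
    · intro y hy
      rw [ZFSet.mem_sep, ZFSet.mem_vonNeumann]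
      exact ⟨ZFSet.rank_lt_of_mem hy, (nc_def.1 hx).2 y hy⟩
    · intro y hy
      exact (nc_def.1 (ZFSet.mem_sep.1 hy).2).1
  · rintro ⟨h1, t, h2, h3, h4⟩
    have h5 : ∀ y : ZFSet.{u}, y ∈ t → NC A y := by
      intro y
      induction y using ZFSet.inductionOn with
      | _ y ih =>
        intro hy
        exact nc_def.2 ⟨h4 y hy, fun z hz => ih z hz (h2 y hy z hz)⟩
    exact nc_def.2 ⟨h1, fun y hy => h5 y (h3 y hy)⟩

theorem nc_iff {A : ZFSet.{u} → Prop} {Q0 : (ℕ → ZFSet.{u}) → Prop} {x : ZFSet.{u}}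
    (h : ∀ y, (A y ↔ Q0 (cons y fun _ => x))) (z : ZFSet.{u}) : NC A z ↔ NCx Q0 z x := by
  rw [nc_tr]
  unfold NCx
  refine and_congr (pc_iff h z) (exists_congr fun t => and_congr_right fun _ =>
    and_congr_right fun _ => forall₂_congr fun y _ => pc_iff h y)

theorem dz_pcx {Q0 : (ℕ → ZFSet.{u}) → Prop} (hQ : DZ Q0) (i j : ℕ) :
    DZ fun v => PCx Q0 (v i) (v j) := by
  obtain ⟨en, hen⟩ := All.en.{u}
  -- order of the variables: w, z', R, y, v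
  refine DZ.ex (DZ.and ?_ (DZ.ex ((hen.dzOD 0).and (DZ.all (DZ.all ?_)))))
  · refine (hQ.ren fun n => if n = 0 then 0 else j + 1).congr fun v => ?_
    have : (cons (v 0) fun _ => v (j + 1)) = fun n => v (if n = 0 then 0 else j + 1) := by
      funext n
      rcases n with _ | n <;> simp
    exact this ▸ Iff.rfl
  · exact (loc_pair 0 3 1).dz.imp ((DZ.mem 0 2).iff (DZ.eq 1 (i + 4)))

theorem dz_ncx {Q0 : (ℕ → ZFSet.{u}) → Prop} (hQ : DZ Q0) (i j : ℕ) :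
    DZ fun v => NCx Q0 (v i) (v j) := by
  refine DZ.and (dz_pcx hQ i j) (DZ.ex (DZ.and ?_ (DZ.and ?_ ?_)))
  · exact DZ.allMem 0 (DZ.allMem 0 (DZ.mem 0 2))
  · exact DZ.allMem (i + 1) (DZ.mem 0 1)
  · exact DZ.allMem 0 (dz_pcx hQ 0 (j + 2))

/-- the measure is a member of `NC A` -/
theorem mic {A : ZFSet.{u} → Prop} (hA : Gp A) (L : Cardinal.{u}) (μ : Ordinal.{u})
    (S : Set Ordinal.{u}) (hS : ∃ x, A x ∧ NF.ODp x (os (succ L).ord S)) :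
    NC A (UC A μ (succ L).ord S) := by
  obtain ⟨x, hx, hxS⟩ := hS
  obtain ⟨Q0, hQ0, h0⟩ := hA
  obtain ⟨R, hR, hRs⟩ := (pf_pa x _).1 hxS
  refine nc_def.2 ⟨⟨x, hx, ?_⟩, fun y hy => (ZFSet.mem_sep.1 hy).2.1⟩
  refine ODp.of_dz (Q := fun v => ∀ z, z ∈ v 0 ↔
    z ∈ ZFSet.powerset (succ L).ord.toZFSet ∧ NCx Q0 z (v 1) ∧ ∃ X, ZFSet.pair (v 1) X ∈ R ∧
      ¬ Pos μ (succ L).ord {a | a.toZFSet ∈ X ∧ a.toZFSet ∉ z})
    (DZ.all (DZ.iff (DZ.mem 0 1) (DZ.and ?_ (DZ.and (dz_ncx hQ0 0 2) (DZ.ex (DZ.and ?_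
      (dz_pos2 μ (succ L).ord).not)))))) fun y => ?_
  · exact DZ.od (R := fun b v => v 0 ∈ b)
      (od_powerset (OD.ordinal (succ L).ord)) (DZ.mem 1 0)
  · exact DZ.od (R := fun r v => ZFSet.pair (v 3) (v 0) ∈ r) hR (loc_pmem 4 1 0).dz
  · have hpos : ∀ z : ZFSet.{u}, Pos μ (succ L).ord
        {a | a.toZFSet ∈ os (succ L).ord S ∧ a.toZFSet ∉ z} ↔
        Pos μ (succ L).ord {a | a ∈ S ∧ a.toZFSet ∉ z} := by
      intro z
      constructor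
      · intro h
        exact h.mono fun b _ hb _ => ⟨(ord_mem_os.1 hb.1).2, hb.2⟩
      · intro h
        exact h.mono fun b hb hbs _ => ⟨ord_mem_os.2 ⟨hb, hbs.1⟩, hbs.2⟩
    have key : ∀ z, (z ∈ ZFSet.powerset (succ L).ord.toZFSet ∧ NCx Q0 z x ∧ ∃ X,
        ZFSet.pair x X ∈ R ∧ ¬ Pos μ (succ L).ord {a | a.toZFSet ∈ X ∧ a.toZFSet ∉ z}) ↔
        z ∈ UC A μ (succ L).ord S := by
      intro z
      unfold UC
      rw [ZFSet.mem_sep, ← nc_iff (h0 x hx) z]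
      constructor
      · rintro ⟨h1, h2, X, h3, h4⟩
        rw [(hRs X).1 h3, hpos] at h4
        exact ⟨h1, h2, h4⟩
      · rintro ⟨h1, h2, h4⟩
        exact ⟨h1, h2, _, (hRs _).2 rfl, by rwa [hpos]⟩
    show (∀ z, z ∈ y ↔ z ∈ ZFSet.powerset (succ L).ord.toZFSet ∧ NCx Q0 z x ∧ ∃ X,
        ZFSet.pair x X ∈ R ∧ ¬ Pos μ (succ L).ord {a | a.toZFSet ∈ X ∧ a.toZFSet ∉ z}) ↔
        y = UC A μ (succ L).ord S
    constructor
    · intro h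
      ext z
      rw [h z, key z]
    · rintro rfl z
      exact (key z).symm

end Pool.Agent.H94.SD
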