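import Pool.Agent.H98.SD.Targets
import Pool.Agent.H7.HD.Clo

/-!
Row DXN: order types are definable.
-/

set_option autoImplicit false

open Ordinal Cardinal Order Set
open scoped ZFSet

universe u

namespace Pool.Agent.H94.SD

open _root_.HD _root_.HD.SD

/-- a definable set of ordinals as an argument -/
theorem setArg {R : ZFSet.{u} → (ℕ → ZFSet.{u}) → Prop}
    (hR : DZ fun v => R (v 0) (fun n => v (n + 1)))
    {X : Ordinal.{u} → ZFSet.{u} → (ℕ → Ordinal.{u}) → Prop}
    (hX : DX fun x w => X (w 0) x (fun n => w (n + 1))) (i : ℕ) :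
    DX fun x w => R (os (w i) {a | X a x w}) (cons x (ov w)) := by
  obtain ⟨Q, hQ, hX⟩ := hX
  refine ⟨fun v => ∃ s, (∀ z, z ∈ s ↔ z ∈ v (i + 1) ∧
    Q (cons (v 0) (cons z (fun n => v (n + 1))))) ∧ R s v, ?_, fun x w => ?_⟩
  · refine DZ.ex (R := fun s v => (∀ z, z ∈ s ↔ z ∈ v (i + 1) ∧
      Q (cons (v 0) (cons z (fun n => v (n + 1))))) ∧ R s v)
      (DZ.and (DZ.all (R := fun z v => z ∈ v 0 ↔ z ∈ v (i + 2) ∧
        Q (cons (v 1) (cons z (fun n => v (n + 2)))))
        ((DZ.mem 0 1).iff ((DZ.mem 0 (i + 3)).and ?_))) hR)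
    refine (hQ.ren (fun n => if n = 0 then 2 else if n = 1 then 0 else n + 1)).congr
      fun v => ?_
    have : (cons (v 2) (cons (v 0) fun n => v (n + 3))) =
        fun n => v (if n = 0 then 2 else if n = 1 then 0 else n + 1) := by
      funext n
      rcases n with _ | _ | n <;> rfl
    rw [← this]
  · have hQ' : ∀ a, X a x w ↔ Q (cons x (cons a.toZFSet (ov w))) := by
      intro a
      have := hX x (cns a w)
      rw [ov_cns] at this
      exact this
    have hs : ∀ z, z ∈ os (w i) {a | X a x w} ↔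
        z ∈ ov w i ∧ Q (cons x (cons z (ov w))) := by
      intro z
      rw [mem_os]
      constructor
      · rintro ⟨a, ha, h, rfl⟩
        exact ⟨toZFSet_mem_toZFSet_iff.2 ha, (hQ' a).1 h⟩
      · rintro ⟨h1, h2⟩
        obtain ⟨a, ha, rfl⟩ := mem_toZFSet_iff.1 h1
        exact ⟨a, ha, (hQ' a).2 h2, rfl⟩
    constructor
    · intro h
      exact ⟨_, hs, h⟩
    · rintro ⟨s, hs', h⟩
      have : s = os (w i) {a | X a x w} := by
        ext z
        rw [hs, hs']
        rfl
      rwa [← this]

theorem pf_DXN : T_DXN.{u} := by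
  intro P hP
  have h1 : DX.{u} fun x w => P x (cns (w 1) (fun n => w (n + 2))) := by
    refine (hP.ren (fun n => if n = 0 then 1 else n + 1)).congr fun x w => ?_
    have : cns (w 1) (fun n => w (n + 2)) = fun n => w (if n = 0 then 1 else n + 1) := by
      funext n
      rcases n with _ | n <;> rfl
    rw [this]
  have h2 : DX.{u} fun x w => P x (cns (w 0) (fun n => w (n + 3))) := by
    refine (hP.ren (fun n => if n = 0 then 0 else n + 2)).congr fun x w => ?_
    have : cns (w 0) (fun n => w (n + 3)) = fun n => w (if n = 0 then 0 else n + 2) := by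
      funext n
      rcases n with _ | n <;> rfl
    rw [this]
  have h3 := setArg (R := fun s v => ∃ g : ZFSet.{u}, EnZ (v 1) s g)
    (DZ.ex (dz_EnZ 3 1 0)) (X := fun a x w => P x (cns a (fun n => w (n + 2)))) h2 1
  refine (h1.and h3).congr fun x w => ?_
  show nth {a | P x (cns a (fun n => w (n + 2)))} (w 0) (w 1) ↔ _
  rw [nth_iff]
  rfl

end Pool.Agent.H94.SD
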