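import Pool.Agent.H98.SD.TargetsM
import Pool.Agent.H7.HD.All

/-!
Row FEM: the number of disjoint positive sets.
-/

set_option autoImplicit false

open Ordinal Cardinal Order Set
open scoped ZFSet

universe u

namespace Pool.Agent.H94.SD

open _root_.HD _root_.HD.SD
open _root_.HD.NF (w0)

theorem pf_FEM (hDXN : T_DXN.{u}) (hCO2 : T_CO2.{u}) : T_FEM.{u} := by
  intro en hen μ κ x m hns P S hP hS w hpos hdisj
  obtain ⟨-, hlt, -, hfew⟩ := _root_.HD.All.vh.{u} {ξ | S x (cns ξ w)}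
  rcases hfew m with h | hall
  · exact h
  exfalso
  apply hns
  let P' : ZFSet.{u} → (ℕ → Ordinal.{u}) → Prop := fun x w =>
    ∃ ξ, nth {ξ' | S x (cns ξ' (fun n => w (n + 2)))} (w 1) ξ ∧
      P x (cns (w 0) (cns ξ (fun n => w (n + 2))))
  have hP' : DX P' := by
    refine DX.ex (S := fun ξ x w => nth {ξ' | S x (cns ξ' (fun n => w (n + 2)))} (w 1) ξ ∧
      P x (cns (w 0) (cns ξ (fun n => w (n + 2))))) (DX.and ?_ ?_)
    · refine ((hDXN S hS).ren (fun n => if n = 0 then 2 else if n = 1 then 0 else n + 1)).congr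
        fun x w => ?_
      exact Iff.rfl
    · refine (hP.ren (fun n => if n = 0 then 1 else if n = 1 then 0 else n + 1)).congr
        fun x w => ?_
      have : cns (w 1) (cns (w 0) (fun n => w (n + 3))) =
          fun n => w (if n = 0 then 1 else if n = 1 then 0 else n + 1) := by
        funext n
        rcases n with _ | _ | n <;> rfl
      rw [← this]
  obtain ⟨c, hc⟩ := hCO2 en hen P' hP' (x.rank + 1) κ m w
  have hx : x ∈ V_ (x.rank + 1) := ZFSet.mem_vonNeumann.2 (lt_add_one _)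
  have hc' : ∀ b i, b ∈ Sc2 en x c i ↔ b < κ ∧ i < m ∧
      ∃ ξ, nth {ξ' | S x (cns ξ' w)} i ξ ∧ P x (cns b (cns ξ w)) := hc x hx
  refine ⟨c, ?_, ?_⟩
  · intro i hi
    obtain ⟨ξ, hξ⟩ := hall i hi
    exact (hpos ξ hξ.1).mono fun b hb hbf _ => (hc' b i).2 ⟨hb, hi, ξ, hξ, hbf⟩
  · intro b i i' h h'
    obtain ⟨-, -, ξ, hξ, hb⟩ := (hc' b i).1 h
    obtain ⟨-, -, ξ', hξ', hb'⟩ := (hc' b i').1 h'
    have he : ξ = ξ' := hdisj ξ ξ' b hξ.1 hξ'.1 hb hb'
    subst he
    rcases lt_trichotomy i i' with h | h | h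
    · exact absurd ((hlt _ _ _ _ hξ hξ').1 h) (lt_irrefl _)
    · exact h
    · exact absurd ((hlt _ _ _ _ hξ' hξ).1 h) (lt_irrefl _)

end Pool.Agent.H94.SD
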