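import Pool.Agent.H98.SD.TargetsG
import Pool.Agent.H94.SD.MIC
import Pool.Agent.H14.SD.PSA

/-!
Row NMX (second copy): in the first case the successor of `L` is not measurable.
-/

set_option autoImplicit false

open Ordinal Cardinal Order Set
open scoped ZFSet

universe u

namespace Pool.Agent.H94.SD

open _root_.HD _root_.HD.SD Pool.Agent.H45.NF Pool.Agent.H14.SD
open _root_.HD.NF (w0)

/-- a set which is definable from two sets which are definable from `c` -/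
theorem odp2 {c a b z : ZFSet.{u}} (ha : NF.ODp c a) (hb : NF.ODp c b)
    {Q : (ℕ → ZFSet.{u}) → Prop} (hQ : DZ Q)
    (h : ∀ w, Q (cons w (cons a fun _ => b)) ↔ w = z) : NF.ODp c z := by
  obtain ⟨Q1, hQ1, h1⟩ := ODp.def ha
  obtain ⟨Q2, hQ2, h2⟩ := ODp.def hb
  refine ODp.of_dz (Q := fun v => ∃ x' y' : ZFSet.{u}, Q1 (cons x' fun _ => v 1) ∧
    Q2 (cons y' fun _ => v 1) ∧ Q (cons (v 0) (cons x' fun _ => y'))) ?_ fun w => ?_
  · refine DZ.ex (DZ.ex ?_)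
    -- order of the variables: y', x', v 0, v 1
    refine DZ.and ?_ (DZ.and ?_ ?_)
    · refine (hQ1.ren fun n => if n = 0 then 1 else 3).congr fun v => ?_
      have : (cons (v 1) fun _ => v 3) = fun n => v (if n = 0 then 1 else 3) := by
        funext n
        rcases n with _ | n <;> simp
      exact this ▸ Iff.rfl
    · refine (hQ2.ren fun n => if n = 0 then 0 else 3).congr fun v => ?_
      have : (cons (v 0) fun _ => v 3) = fun n => v (if n = 0 then 0 else 3) := by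
        funext n
        rcases n with _ | n <;> simp
      exact this ▸ Iff.rfl
    · refine (hQ.ren fun n => if n = 0 then 2 else if n = 1 then 1 else 0).congr fun v => ?_
      have : (cons (v 2) (cons (v 1) fun _ => v 0)) =
          fun n => v (if n = 0 then 2 else if n = 1 then 1 else 0) := by
        funext n
        rcases n with _ | _ | n <;> simp
      exact this ▸ Iff.rfl
  · constructor
    · rintro ⟨x', y', h5, h6, h7⟩
      rw [(h1 x').1 h5, (h2 y').1 h6] at h7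
      exact (h w).1 h7
    · rintro rfl
      exact ⟨a, b, (h1 a).2 rfl, (h2 b).2 rfl, (h _).2 rfl⟩

theorem odp_pr {c a b : ZFSet.{u}} (ha : NF.ODp c a) (hb : NF.ODp c b) :
    NF.ODp c ({a, b} : ZFSet.{u}) := by
  refine odp2 ha hb (Q := fun v => ∀ w, w ∈ v 0 ↔ (w = v 1 ∨ w = v 2))
    (DZ.all ((DZ.mem 0 1).iff ((DZ.eq 0 2).or (DZ.eq 0 3)))) fun w => ?_
  show (∀ z, z ∈ w ↔ (z = a ∨ z = b)) ↔ w = {a, b}
  constructor
  · intro h
    ext z
    rw [h z, ZFSet.mem_pair]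
  · rintro rfl z
    exact ZFSet.mem_pair

theorem nc_pr {A : ZFSet.{u} → Prop} {x a b : ZFSet.{u}} (hx : A x)
    (hA : ∀ y, A y → NF.ODp x y) (ha : NC A a) (hb : NC A b) :
    NC A ({a, b} : ZFSet.{u}) := by
  have h1 : ∀ z, PC A z → NF.ODp x z := by
    rintro z ⟨y, hy, hz⟩
    exact odp_trans (hA y hy) hz
  refine nc_def.2 ⟨⟨x, hx, odp_pr (h1 _ (nc_def.1 ha).1) (h1 _ (nc_def.1 hb).1)⟩,
    fun y hy => ?_⟩
  rcases ZFSet.mem_pair.1 hy with rfl | rfl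
  · exact ha
  · exact hb

theorem nc_pair {A : ZFSet.{u} → Prop} {x a b : ZFSet.{u}} (hx : A x)
    (hA : ∀ y, A y → NF.ODp x y) (ha : NC A a) (hb : NC A b) : NC A (ZFSet.pair a b) := by
  have h1 : ZFSet.pair a b = {({a, a} : ZFSet.{u}), ({a, b} : ZFSet.{u})} := by
    have : ({a, a} : ZFSet.{u}) = {a} := by
      ext z
      rw [ZFSet.mem_pair, ZFSet.mem_singleton, or_self]
    rw [this]
    rfl
  rw [h1]
  exact nc_pr hx hA (nc_pr hx hA ha ha) (nc_pr hx hA ha hb)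

theorem odp_od {x z : ZFSet.{u}} (hz : OD z) : NF.ODp x z :=
  ODp.of_dz (Q := fun v => v 0 = z)
    (DZ.od (R := fun r v => v 0 = r) hz (DZ.eq 1 0)) fun _ => Iff.rfl

theorem nc_ord {A : ZFSet.{u} → Prop} {x : ZFSet.{u}} (hx : A x) (a : Ordinal.{u}) :
    NC A a.toZFSet := by
  induction a using WellFoundedLT.induction with
  | _ a ih =>
    refine nc_def.2 ⟨⟨x, hx, odp_od (OD.ordinal a)⟩, fun y hy => ?_⟩
    obtain ⟨b, hb, rfl⟩ := mem_toZFSet_iff.1 hy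
    exact ih b hb

theorem nc_sub {A : ZFSet.{u} → Prop} {x z : ZFSet.{u}} (hx : A x) {κ : Ordinal.{u}}
    (hz : z ⊆ κ.toZFSet) (h : NF.ODp x z) : NC A z := by
  refine nc_def.2 ⟨⟨x, hx, h⟩, fun y hy => ?_⟩
  obtain ⟨b, -, rfl⟩ := mem_toZFSet_iff.1 (hz hy)
  exact nc_ord hx b

/-- `b ∈ F⁻¹ {z | a ∈ z}` -/
def Gz (F b a : ZFSet.{u}) : Prop := ∃ z, ZFSet.pair b z ∈ F ∧ a ∈ z

theorem dz_gz (i j k : ℕ) : DZ.{u} fun v => Gz (v i) (v j) (v k) :=
  DZ.ex ((loc_pmem (j + 1) 0 (i + 1)).dz.and (DZ.mem (k + 1) 0))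

theorem pf_NMX (hW : T_WIE.{u}) : T_NMX.{u} := by
  intro L hL A x hx hA hz
  rintro ⟨U, hU⟩
  obtain ⟨F, hF, hFf, hFi⟩ := hW L hL x hz
  have hpc : ∀ z, PC A z → NF.ODp x z := by
    rintro z ⟨y, hy, hz⟩
    exact odp_trans (hA y hy) hz
  have hUx : NF.ODp x U := hpc _ (nc_def.1 hU.inN).1
  have hUN : ∀ Y ∈ U, NC A Y := (nc_def.1 hU.inN).2
  set κ : Ordinal.{u} := (succ L).ord with hκ
  have hLκ : L.ord < κ := Cardinal.ord_lt_ord.2 (lt_succ L)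
  have h0κ : (0 : Ordinal.{u}) < κ := lt_of_le_of_lt zero_le hLκ
  -- the two kinds of sets
  let P : ZFSet.{u} → ZFSet.{u} → Prop := fun a Y =>
    (∀ b, b ∈ Y ↔ b ∈ κ.toZFSet ∧ Gz F b a) ∨ (∀ b, b ∈ Y ↔ b ∈ κ.toZFSet ∧ ¬ Gz F b a)
  let f : ZFSet.{u} := ZFSet.sep (fun w => ∃ a Y, w = ZFSet.pair a Y ∧ P a Y)
    (ZFSet.prod L.ord.toZFSet U)
  have hmf : ∀ a Y, ZFSet.pair a Y ∈ f ↔ a ∈ L.ord.toZFSet ∧ Y ∈ U ∧ P a Y := by
    intro a Y
    show _ ∈ ZFSet.sep _ _ ↔ _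
    rw [ZFSet.mem_sep, ZFSet.pair_mem_prod]
    constructor
    · rintro ⟨⟨h1, h2⟩, a', Y', h3, h4⟩
      obtain ⟨rfl, rfl⟩ := ZFSet.pair_injective h3
      exact ⟨h1, h2, h4⟩
    · rintro ⟨h1, h2, h3⟩
      exact ⟨⟨h1, h2⟩, a, Y, rfl, h3⟩
  have hfx : NF.ODp x f := by
    refine odp2 hF hUx (Q := fun v => ∀ w, w ∈ v 0 ↔ ∃ a Y, w = ZFSet.pair a Y ∧
      a ∈ L.ord.toZFSet ∧ Y ∈ v 2 ∧ ((∀ b, b ∈ Y ↔ b ∈ κ.toZFSet ∧ Gz (v 1) b a) ∨
        (∀ b, b ∈ Y ↔ b ∈ κ.toZFSet ∧ ¬ Gz (v 1) b a))) ?_ fun w => ?_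
    · have hk : ∀ i : ℕ, DZ.{u} fun v => v i ∈ κ.toZFSet := fun i =>
        DZ.od (R := fun r v => v i ∈ r) (OD.ordinal κ) (DZ.mem (i + 1) 0)
      have hl : ∀ i : ℕ, DZ.{u} fun v => v i ∈ L.ord.toZFSet := fun i =>
        DZ.od (R := fun r v => v i ∈ r) (OD.ordinal L.ord) (DZ.mem (i + 1) 0)
      -- order of the variables: Y, a, w, v 0, v 1, v 2
      refine DZ.all ((DZ.mem 0 1).iff (DZ.ex (DZ.ex ((loc_pair 2 1 0).dz.and
        ((hl 1).and ((DZ.mem 0 5).and (DZ.or ?_ ?_)))))))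
      · exact DZ.all ((DZ.mem 0 1).iff ((hk 0).and (dz_gz 5 0 2)))
      · exact DZ.all ((DZ.mem 0 1).iff ((hk 0).and (dz_gz 5 0 2).not))
    · show (∀ z, z ∈ w ↔ ∃ a Y, z = ZFSet.pair a Y ∧ a ∈ L.ord.toZFSet ∧ Y ∈ U ∧ P a Y) ↔
        w = f
      have key : ∀ z, (∃ a Y, z = ZFSet.pair a Y ∧ a ∈ L.ord.toZFSet ∧ Y ∈ U ∧ P a Y) ↔
          z ∈ f := by
        intro z
        constructor
        · rintro ⟨a, Y, rfl, h1, h2, h3⟩
          exact (hmf a Y).2 ⟨h1, h2, h3⟩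
        · intro h
          obtain ⟨h1, a, Y, rfl, h2⟩ := ZFSet.mem_sep.1 h
          exact ⟨a, Y, rfl, (hmf a Y).1 h⟩
      constructor
      · intro h
        ext z
        rw [h z, key z]
      · rintro rfl z
        exact (key z).symm
  have hfN : NC A f := by
    refine nc_def.2 ⟨⟨x, hx, hfx⟩, fun w hw => ?_⟩
    obtain ⟨h1, a, Y, rfl, h2⟩ := ZFSet.mem_sep.1 hw
    obtain ⟨h3, h4, -⟩ := (hmf a Y).1 hw
    obtain ⟨b, -, rfl⟩ := mem_toZFSet_iff.1 h3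
    exact nc_pair hx hA (nc_ord hx b) (hUN Y h4)
  -- the sets `X a`
  have hXa : ∀ a ∈ L.ord.toZFSet, NC A ((κ.toZFSet).sep fun b => Gz F b a) := by
    intro a ha
    obtain ⟨a, -, rfl⟩ := mem_toZFSet_iff.1 ha
    refine nc_sub hx (κ := κ) (fun z hz => (ZFSet.mem_sep.1 hz).1) ?_
    refine odp2 hF hF (Q := fun v => ∀ b, b ∈ v 0 ↔ b ∈ κ.toZFSet ∧ Gz (v 1) b a.toZFSet)
      ?_ fun w => ?_
    · refine DZ.all ((DZ.mem 0 1).iff (DZ.and ?_ ?_))
      · exact DZ.od (R := fun r v => v 0 ∈ r) (OD.ordinal κ) (DZ.mem 1 0)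
      · exact DZ.od (R := fun r v => Gz (v 2) (v 0) r) (OD.ordinal a) (dz_gz 3 1 0)
    · constructor
      · intro h
        ext b
        rw [ZFSet.mem_sep]
        exact h b
      · rintro rfl b
        show b ∈ ZFSet.sep (fun b => Gz F b a.toZFSet) κ.toZFSet ↔
          b ∈ κ.toZFSet ∧ Gz F b a.toZFSet
        rw [ZFSet.mem_sep]
  have hdiff : ∀ a b : ZFSet.{u}, b ∈ κ.toZFSet \ (κ.toZFSet).sep (fun b => Gz F b a) ↔
      b ∈ κ.toZFSet ∧ ¬ Gz F b a := by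
    intro a b
    rw [ZFSet.mem_sdiff, ZFSet.mem_sep]
    tauto
  have hfun : ZFSet.IsFunc L.ord.toZFSet U f := by
    refine ⟨fun w hw => (ZFSet.mem_sep.1 hw).1, fun a ha => ?_⟩
    have hu := hU.ultra _ (hXa a ha) fun z hz => (ZFSet.mem_sep.1 hz).1
    by_cases h1 : (κ.toZFSet).sep (fun b => Gz F b a) ∈ U
    · refine ⟨_, (hmf _ _).2 ⟨ha, h1, Or.inl fun b => ZFSet.mem_sep⟩, fun Y hY => ?_⟩
      obtain ⟨-, h3, h4 | h4⟩ := (hmf _ _).1 hY
      · ext b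
        rw [h4 b, ZFSet.mem_sep]
      · exfalso
        have : Y = κ.toZFSet \ (κ.toZFSet).sep (fun b => Gz F b a) := by
          ext b
          rw [h4 b, hdiff]
        exact hu.1 h1 (this ▸ h3)
    · have h2 : κ.toZFSet \ (κ.toZFSet).sep (fun b => Gz F b a) ∈ U := by
        by_contra h2
        exact h1 (hu.2 h2)
      refine ⟨_, (hmf _ _).2 ⟨ha, h2, Or.inr fun b => hdiff a b⟩, fun Y hY => ?_⟩
      obtain ⟨-, h3, h4 | h4⟩ := (hmf _ _).1 hY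
      · exfalso
        have : Y = (κ.toZFSet).sep (fun b => Gz F b a) := by
          ext b
          rw [h4 b, ZFSet.mem_sep]
        exact h1 (this ▸ h3)
      · ext b
        rw [h4 b, hdiff]
  have hXU := hU.compl L.ord hLκ f hfN hfun
  set X : ZFSet.{u} := (κ.toZFSet).sep (fun b => ∀ a Y, ZFSet.pair a Y ∈ f → b ∈ Y) with hXdef
  -- two elements of `X` are equal
  have hone : ∀ b < κ, ∀ b' < κ, b.toZFSet ∈ X → b'.toZFSet ∈ X → b < b' → False := by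
    intro b hb b' hb' h1 h2 hlt
    obtain ⟨z, hz1, -⟩ := hFf.2 b.toZFSet (toZFSet_mem_toZFSet_iff.2 hb)
    obtain ⟨z', hz1', -⟩ := hFf.2 b'.toZFSet (toZFSet_mem_toZFSet_iff.2 hb')
    have hzL : z ⊆ L.ord.toZFSet :=
      ZFSet.mem_powerset.1 (ZFSet.pair_mem_prod.1 (hFf.1 hz1)).2
    have hzL' : z' ⊆ L.ord.toZFSet :=
      ZFSet.mem_powerset.1 (ZFSet.pair_mem_prod.1 (hFf.1 hz1')).2
    have hg : ∀ (c w : ZFSet.{u}), c ∈ κ.toZFSet → ZFSet.pair c w ∈ F →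
        ∀ a, Gz F c a ↔ a ∈ w := by
      intro c w hc hcw a
      constructor
      · rintro ⟨w', h3, h4⟩
        obtain ⟨w'', -, h6⟩ := hFf.2 c hc
        rwa [h6 w hcw, ← h6 w' h3]
      · intro h
        exact ⟨w, hcw, h⟩
    have heq : z = z' := by
      ext a
      by_cases ha : a ∈ L.ord.toZFSet
      · obtain ⟨Y, hY, -⟩ := hfun.2 a ha
        have m1 : b.toZFSet ∈ Y := (ZFSet.mem_sep.1 h1).2 a Y hY
        have m2 : b'.toZFSet ∈ Y := (ZFSet.mem_sep.1 h2).2 a Y hY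
        have g1 := hg _ z (toZFSet_mem_toZFSet_iff.2 hb) hz1 a
        have g2 := hg _ z' (toZFSet_mem_toZFSet_iff.2 hb') hz1' a
        obtain ⟨-, -, h4 | h4⟩ := (hmf _ _).1 hY
        · exact iff_of_true (g1.1 ((h4 _).1 m1).2) (g2.1 ((h4 _).1 m2).2)
        · exact iff_of_false (fun h => ((h4 _).1 m1).2 (g1.2 h))
            (fun h => ((h4 _).1 m2).2 (g2.2 h))
      · exact iff_of_false (fun h => ha (hzL h)) (fun h => ha (hzL' h))
    subst heq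
    exact hFi b b' z hlt hb' hz1 hz1'
  -- so `X` has at most one element
  have hb : ∃ b < κ, X ⊆ ({b.toZFSet} : ZFSet.{u}) := by
    by_cases hne : ∃ c, c ∈ X
    · obtain ⟨c, hc⟩ := hne
      obtain ⟨b, hb, rfl⟩ := mem_toZFSet_iff.1 (ZFSet.mem_sep.1 hc).1
      refine ⟨b, hb, fun d hd => ?_⟩
      obtain ⟨b', hb', rfl⟩ := mem_toZFSet_iff.1 (ZFSet.mem_sep.1 hd).1
      rw [ZFSet.mem_singleton]
      rcases lt_trichotomy b b' with h | h | h
      · exact (hone b hb b' hb' hc hd h).elim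
      · rw [h]
      · exact (hone b' hb' b hb hd hc h).elim
    · exact ⟨0, h0κ, fun d hd => (hne ⟨d, hd⟩).elim⟩
  obtain ⟨b, hb, hXb⟩ := hb
  have hsb : ({b.toZFSet} : ZFSet.{u}) ⊆ κ.toZFSet := by
    intro d hd
    rw [ZFSet.mem_singleton] at hd
    rw [hd]
    exact toZFSet_mem_toZFSet_iff.2 hb
  refine hU.nonpr b hb (hU.up X hXU _ ?_ hXb hsb)
  have : ({b.toZFSet} : ZFSet.{u}) = {b.toZFSet, b.toZFSet} := by
    ext z
    rw [ZFSet.mem_pair, ZFSet.mem_singleton, or_self]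
  rw [this]
  exact nc_pr hx hA (nc_ord hx b) (nc_ord hx b)

end Pool.Agent.H94.SD
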